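import Mathlib
import Pool.Agent.H547R3.Sub.GMap

set_option autoImplicit false

namespace Pool.Agent.Results.MP_fd8838_nt.SimpleExceptional

/-- The generalised Hasse-Syracuse map `H(x) = (m x - r_j) / d ^ a(x)`, where `j` is the residue of
`x` modulo `d` and `d ^ a(x)` is the largest power of `d` dividing `m x - r_j`. -/
def H (d m : ℕ) (r : ℤ → ℤ) (x : ℤ) : ℤ :=
  (m * x - r (x % d)) / (d : ℤ) ^ padicValInt d (m * x - r (x % d))

/-- The exceptional set `E(d, m, R)`: the positive integers `n` not divisible by `d` such that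
`H^k(n) ≥ n` for all `k ≥ 1` for which `H^k(n)` is defined (the orbit stops at `y` if
`m y ≤ r_j`). -/
def E (d m : ℕ) (r : ℤ → ℤ) : Set ℤ :=
  {n | 0 < n ∧ ¬ (d : ℤ) ∣ n ∧ ∀ k, 1 ≤ k →
    (∀ i < k, r ((H d m r)^[i] n % d) < m * (H d m r)^[i] n) → n ≤ (H d m r)^[k] n}

/-- The accelerated map `T(x) = x / d` if `d ∣ x`, `T(x) = (m x - r_j) / d` if `x ≡ j (mod d)`,
`1 ≤ j < d`. -/
def T (d m : ℕ) (r : ℤ → ℤ) (x : ℤ) : ℤ := if x % d = 0 then x / d else (m * x - r (x % d)) / d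

/-- The factor `w a, w (a+1), ..., w (b-1)` of the sequence `w` has period `π`. -/
def HasPeriod (w : ℕ → ℤ) (π a b : ℕ) : Prop := ∀ j, a ≤ j → j + π < b → w (j + π) = w j

/-- The word `w 0, w 1, ..., w (n-1)` is a concatenation of `s` words (cut at `0 = t 0 ≤ t 1 ≤ ... ≤
t s = n`), each of which has some period `π` with `1 ≤ π ≤ ℓ`. -/
def Splits (w : ℕ → ℤ) (ℓ s n : ℕ) : Prop :=
  ∃ t : ℕ → ℕ, t 0 = 0 ∧ t s = n ∧ (∀ i < s, t i ≤ t (i + 1)) ∧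
    ∀ i < s, ∃ π, 1 ≤ π ∧ π ≤ ℓ ∧ HasPeriod w π (t i) (t (i + 1))

open Pool.Agent.H547R3.Sub in
lemma T_eq (d q e : ℕ) (r : ℤ → ℤ) :
    T d (q ^ e) r = GT d q (fun i => if i = 0 then 0 else e) (fun i => if i = 0 then 0 else r i) := by
  funext x
  unfold T GT
  by_cases h : x % d = 0
  · simp [h]
  · simp [h]

section orbit

variable {d m : ℕ} [Fact d.Prime] {r : ℤ → ℤ} {R : ℤ} {n : ℤ}

lemma mod_range (hd : d.Prime) {y : ℤ} (hy : ¬ (d : ℤ) ∣ y) : 1 ≤ y % d ∧ y % d < d := by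
  have hd0 : (0 : ℤ) < d := by exact_mod_cast hd.pos
  have h1 := Int.emod_nonneg y hd0.ne'
  have h2 := Int.emod_lt_of_pos y hd0
  have h3 : y % d ≠ 0 := fun h => hy (Int.dvd_of_emod_eq_zero h)
  omega

lemma H_spec (hd : d.Prime) (hr : ∀ j : ℤ, 1 ≤ j → j < d → (d : ℤ) ∣ m * j - r j) {y : ℤ}
    (hy : ¬ (d : ℤ) ∣ y) (hpos : r (y % d) < m * y) :
    ¬ (d : ℤ) ∣ H d m r y ∧ ∃ v : ℕ, m * y - r (y % d) = (d : ℤ) ^ (v + 1) * H d m r y := by
  set z := m * y - r (y % d) with hz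
  have hz0 : z ≠ 0 := by omega
  obtain ⟨h1, h2⟩ := mod_range hd hy
  have hdz : (d : ℤ) ∣ z := by
    have h3 := hr (y % d) h1 h2
    have h4 : (d : ℤ) ∣ m * (y - y % d) := Dvd.dvd.mul_left (Int.dvd_self_sub_emod) _
    have h5 := dvd_add h3 h4
    have h6 : (m : ℤ) * (y % d) - r (y % d) + m * (y - y % d) = z := by rw [hz]; ring
    rwa [h6] at h5
  have hv : 1 ≤ padicValInt d z := by
    rcases (padicValInt_dvd_iff (p := d) 1 z).1 (by simpa using hdz) with h | h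
    · exact absurd h hz0
    · exact h
  obtain ⟨v, hv'⟩ : ∃ v, padicValInt d z = v + 1 := ⟨padicValInt d z - 1, by omega⟩
  have hdvd : (d : ℤ) ^ (v + 1) ∣ z := by rw [← hv']; exact padicValInt_dvd z
  have hH : H d m r y = z / (d : ℤ) ^ (v + 1) := by unfold H; rw [← hz, hv']
  have hzH : z = (d : ℤ) ^ (v + 1) * H d m r y := by rw [hH, Int.mul_ediv_cancel' hdvd]
  refine ⟨fun h => ?_, v, hzH⟩
  have h7 : (d : ℤ) ^ (v + 1 + 1) ∣ z := by
    rw [hzH, pow_succ (d : ℤ) (v + 1)]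
    exact mul_dvd_mul_left _ h
  rcases (padicValInt_dvd_iff (p := d) (v + 1 + 1) z).1 h7 with h8 | h8
  · exact hz0 h8
  · omega

lemma orbit_H (hd : d.Prime) (hm : 1 ≤ m)
    (hr : ∀ j : ℤ, 1 ≤ j → j < d → (d : ℤ) ∣ m * j - r j)
    (hR : ∀ j : ℤ, 1 ≤ j → j < d → r j ≤ R) (hn : n ∈ E d m r) (hnR : R < n) (k : ℕ) :
    n ≤ (H d m r)^[k] n ∧ ¬ (d : ℤ) ∣ (H d m r)^[k] n := by
  obtain ⟨hn0, hdn, hE⟩ := hn
  have hmR : (1 : ℤ) ≤ m := by exact_mod_cast hm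
  have hdef : ∀ y : ℤ, n ≤ y → ¬ (d : ℤ) ∣ y → r (y % d) < m * y := by
    intro y hy hdy
    obtain ⟨h1, h2⟩ := mod_range hd hdy
    have h3 := hR _ h1 h2
    nlinarith
  induction k using Nat.strong_induction_on with
  | _ k ih =>
    rcases Nat.eq_zero_or_pos k with h0 | h0
    · rw [h0]; exact ⟨le_rfl, hdn⟩
    · refine ⟨hE k h0 (fun i hi => hdef _ (ih i hi).1 (ih i hi).2), ?_⟩
      obtain ⟨j, rfl⟩ : ∃ j, k = j + 1 := ⟨k - 1, by omega⟩
      rw [Function.iterate_succ_apply']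
      obtain ⟨h1, h2⟩ := ih j (by omega)
      exact (H_spec hd hr h2 (hdef _ h1 h2)).1

lemma orbit_T (hd : d.Prime) (hm : 1 ≤ m)
    (hr : ∀ j : ℤ, 1 ≤ j → j < d → (d : ℤ) ∣ m * j - r j)
    (hR : ∀ j : ℤ, 1 ≤ j → j < d → r j ≤ R) (hn : n ∈ E d m r) (hnR : R < n) (i : ℕ) :
    ∃ k a : ℕ, (T d m r)^[i] n = (d : ℤ) ^ a * (H d m r)^[k] n := by
  have hd0 : (0 : ℤ) < d := by exact_mod_cast hd.pos
  have hmR : (1 : ℤ) ≤ m := by exact_mod_cast hm
  induction i with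
  | zero => exact ⟨0, 0, by simp⟩
  | succ i ih =>
    obtain ⟨k, a, h⟩ := ih
    rw [Function.iterate_succ_apply', h]
    obtain ⟨h1, h2⟩ := orbit_H hd hm hr hR hn hnR k
    set y := (H d m r)^[k] n with hy
    rcases Nat.eq_zero_or_pos a with h0 | h0
    · subst h0
      rw [pow_zero, one_mul]
      obtain ⟨g1, g2⟩ := mod_range hd h2
      have hpos : r (y % d) < m * y := by
        have h3 := hR _ g1 g2
        have := hn.1
        nlinarith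
      obtain ⟨-, v, hv⟩ := H_spec hd hr h2 hpos
      refine ⟨k + 1, v, ?_⟩
      rw [Function.iterate_succ_apply', ← hy]
      unfold T
      rw [if_neg (by omega), hv, pow_succ']
      rw [mul_assoc, Int.mul_ediv_cancel_left _ hd0.ne']
    · obtain ⟨b, rfl⟩ : ∃ b, a = b + 1 := ⟨a - 1, by omega⟩
      refine ⟨k, b, ?_⟩
      unfold T
      have h3 : (d : ℤ) ^ (b + 1) * y = d * ((d : ℤ) ^ b * y) := by rw [pow_succ']; ring
      rw [h3, Int.mul_emod_right, if_pos rfl, Int.mul_ediv_cancel_left _ hd0.ne']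

lemma orbit_ge (hd : d.Prime) (hm : 1 ≤ m)
    (hr : ∀ j : ℤ, 1 ≤ j → j < d → (d : ℤ) ∣ m * j - r j)
    (hR : ∀ j : ℤ, 1 ≤ j → j < d → r j ≤ R) (hn : n ∈ E d m r) (hnR : R < n) (i : ℕ) :
    n ≤ (T d m r)^[i] n := by
  obtain ⟨k, a, h⟩ := orbit_T hd hm hr hR hn hnR i
  obtain ⟨h1, -⟩ := orbit_H hd hm hr hR hn hnR k
  have hn0 := hn.1
  have hda : (1 : ℤ) ≤ (d : ℤ) ^ a := one_le_pow₀ (by exact_mod_cast hd.one_le)
  rw [h]
  nlinarith

end orbit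

open Pool.Agent.H547R3.Sub in
/-- Let `d ≠ q` be primes, `m = q ^ e`, and `r` an admissible choice of offsets. For all `ℓ`, `s`
and `η > 0` only finitely many elements `n` of the exceptional set `E(d, m, R)` have, for some
`N ≥ (1 + η) log_d n`, a residue word `n, T n, ..., T^(N-1) n` modulo `d` which is a concatenation of
`s` words each having a period at most `ℓ`. -/
theorem result (d q e : ℕ) (hd : d.Prime) (hq : q.Prime) (hdq : d ≠ q) (r : ℤ → ℤ)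
    (hr : ∀ j : ℤ, 1 ≤ j → j < d → (d : ℤ) ∣ (q ^ e : ℕ) * j - r j) (ℓ s : ℕ) (η : ℝ)
    (hη : 0 < η) :
    {n : ℤ | n ∈ E d (q ^ e) r ∧ ∃ N : ℕ, (1 + η) * Real.logb d n ≤ N ∧
      Splits (fun i => (T d (q ^ e) r)^[i] n % (d : ℤ)) ℓ s N}.Finite := by
  have hdF : Fact d.Prime := ⟨hd⟩
  have hd0 : (0 : ℤ) < d := by exact_mod_cast hd.pos
  have hm : 1 ≤ q ^ e := Nat.one_le_pow _ _ hq.pos
  set ε : ℤ → ℕ := fun i => if i = 0 then 0 else e with hε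
  set r' : ℤ → ℤ := fun i => if i = 0 then 0 else r i with hr'
  have hadm : ∀ i : ℤ, 0 ≤ i → i < d → (d : ℤ) ∣ (q : ℤ) ^ ε i * i - r' i := by
    intro i h0 h1
    rcases eq_or_lt_of_le h0 with h | h
    · rw [← h]; simp [hε, hr']
    · have h2 := hr i (by omega) h1
      simp only [hε, hr', h.ne', if_false]
      exact_mod_cast h2
  have hTG : T d (q ^ e) r = GT d q ε r' := T_eq d q e r
  obtain ⟨κ, hκ, n0, hg⟩ := GT_growth hd hq hdq ε r' hadm s η hη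
  set R : ℤ := ∑ j ∈ Finset.Ico (1 : ℤ) d, |r j| with hR
  have hRb : ∀ j : ℤ, 1 ≤ j → j < d → r j ≤ R := by
    intro j h1 h2
    exact (le_abs_self _).trans (Finset.single_le_sum (f := fun j => |r j|)
      (fun _ _ => abs_nonneg _) (Finset.mem_Ico.2 ⟨h1, h2⟩))
  have hFin : (⋃ P ∈ Finset.Icc 1 ℓ, {x : ℤ | (GT d q ε r')^[P] x = x}).Finite :=
    Set.Finite.biUnion (Finset.finite_toSet _)
      (fun P hP => GT_finite hd hq hdq ε r' hadm P (Finset.mem_Icc.1 hP).1)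
  obtain ⟨M, hM⟩ := hFin.bddAbove
  set n1 : ℕ := max n0 ⌈(ℓ : ℝ) / κ⌉₊ with hn1
  refine (Set.finite_Icc (0 : ℤ) (max (max R M) (d ^ n1))).subset ?_
  rintro n ⟨hn, N, hN, hS⟩
  refine Set.mem_Icc.2 ⟨hn.1.le, ?_⟩
  by_contra hcon
  push Not at hcon
  have hnR : R < n := lt_of_le_of_lt ((le_max_left _ _).trans (le_max_left _ _)) hcon
  have hnM : M < n := lt_of_le_of_lt ((le_max_right _ _).trans (le_max_left _ _)) hcon
  have hnd : (d : ℤ) ^ n1 < n := lt_of_le_of_lt (le_max_right _ _) hcon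
  have hn0R : (0 : ℝ) < n := by exact_mod_cast hn.1
  have hd1R : (1 : ℝ) < d := by exact_mod_cast hd.one_lt
  have hlog : (n1 : ℝ) ≤ Real.logb d n := by
    rw [Real.le_logb_iff_rpow_le hd1R hn0R, Real.rpow_natCast]
    exact_mod_cast hnd.le
  have hn1N : (n1 : ℝ) ≤ N := by
    have h0 : (0 : ℝ) ≤ n1 := Nat.cast_nonneg _
    nlinarith
  have hn1N' : n1 ≤ N := by exact_mod_cast hn1N
  have hℓN : (ℓ : ℝ) ≤ κ * N := by
    have h1 := Nat.le_ceil ((ℓ : ℝ) / κ)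
    have h2 : ((⌈(ℓ : ℝ) / κ⌉₊ : ℕ) : ℝ) ≤ N := by
      exact_mod_cast (le_max_right _ _).trans hn1N'
    have h3 := h1.trans h2
    rw [div_le_iff₀ hκ] at h3
    linarith
  obtain ⟨t, g0, gs, gmono, gper⟩ := hS
  obtain ⟨j, π, h1, h2, h3, h4⟩ := hg n N ℓ ((le_max_left _ _).trans hn1N') hℓN
    (by rw [abs_of_pos hn0R]; exact hN)
    ⟨t, g0, gs, gmono, fun i hi => by
      obtain ⟨π, k1, k2, k3⟩ := gper i hi
      refine ⟨π, k1, k2, fun j hj1 hj2 => ?_⟩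
      have := k3 j hj1 hj2
      simp only [hTG] at this
      exact this⟩
  have h5 : (GT d q ε r')^[j] n ∈ ⋃ P ∈ Finset.Icc 1 ℓ, {x : ℤ | (GT d q ε r')^[P] x = x} := by
    refine Set.mem_iUnion₂.2 ⟨π, Finset.mem_Icc.2 ⟨h1, h2⟩, ?_⟩
    show (GT d q ε r')^[π] ((GT d q ε r')^[j] n) = (GT d q ε r')^[j] n
    rw [← Function.iterate_add_apply, add_comm, h4]
  have h6 := hM h5
  have h7 := orbit_ge hd hm hr hRb hn hnR j
  rw [hTG] at h7
  omega

end Pool.Agent.Results.MP_fd8838_nt.SimpleExceptional
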